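import Mathlib

/-!
# The conjectured congruences for sums involving `T_k(18,1)` and `T_{3k}(6,1)` fail

Part (c) of the conjunction fails at `p = 11`.
-/

namespace Pool.Agent.Results.MP_f8e877_nt.PartCFails

/-- `T_n(b,c)`, the coefficient of `x^n` in `(x^2+bx+c)^n`. -/
def T (n : ℕ) (b c : ℚ) : ℚ :=
  ∑ j ∈ Finset.range (n / 2 + 1), (n.choose (2 * j) : ℚ) * ((2 * j).choose j : ℚ) *
    b ^ (n - 2 * j) * c ^ j

/-- `x ≡ y mod p^2` in the ring of rationals with denominators prime to `p`. -/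
def Cong (p : ℕ) (x y : ℚ) : Prop := ¬ p ∣ ((x - y) / (p : ℚ) ^ 2).den

/-- `A_k`. -/
def A (k : ℕ) : ℚ := ((2 * k).choose k : ℚ) * ((3 * k).choose k : ℚ)
/-- `B_k`. -/
def B (k : ℕ) : ℚ := ((2 * k).choose k : ℚ) ^ 2
/-- `u_k`. -/
def u (k : ℕ) : ℚ := T k 18 1 / 512 ^ k
/-- `v_k`. -/
def v (k : ℕ) : ℚ := T (3 * k) 6 1 / (-512) ^ k
/-- The sum `S`. -/
def S (p : ℕ) : ℚ := ∑ k ∈ Finset.range p, A k * u k
/-- The sum `S'`. -/
def S' (p : ℕ) : ℚ := ∑ k ∈ Finset.range p, A k * v k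

/-- Part (a). -/
def PartA (p : ℕ) : Prop :=
  Cong p (S p) (jacobiSym 10 p * S' p) ∧
  (jacobiSym p 5 = 1 → jacobiSym p 7 = 1 → ∀ x y : ℤ, 4 * (p : ℤ) = x ^ 2 + 35 * y ^ 2 →
    Cong p (S p) ((x : ℚ) ^ 2 - 2 * p)) ∧
  (jacobiSym p 5 = -1 → jacobiSym p 7 = -1 → ∀ x y : ℤ, 4 * (p : ℤ) = 5 * x ^ 2 + 7 * y ^ 2 →
    Cong p (S p) (2 * p - 5 * (x : ℚ) ^ 2)) ∧
  (jacobiSym p 35 = -1 → Cong p (S p) 0)

/-- Part (b). -/
def PartB (p : ℕ) : Prop :=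
  Cong p (∑ k ∈ Finset.range p, (35 * (k : ℚ) + 9) * A k * u k)
    (9 / 2 * p * (7 - 5 * jacobiSym p 5))

/-- Part (c), with the factor `B_k` as posed. -/
def PartC (p : ℕ) : Prop :=
  Cong p (∑ k ∈ Finset.range p, (35 * (k : ℚ) + 9) * B k * v k)
    (9 / 32 * p * jacobiSym 2 p * (25 + 7 * jacobiSym p 7))

/-- The conjunction of Q1. -/
def Q1 : Prop := ∀ p : ℕ, p.Prime → 7 < p → PartA p ∧ PartB p ∧ PartC p

lemma not_partC_eleven : ¬ PartC 11 := by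
  have h1 : jacobiSym 2 11 = -1 := by decide +kernel
  have h2 : jacobiSym 11 7 = 1 := by decide +kernel
  unfold PartC Cong
  rw [show ((11 : ℕ) : ℤ) = 11 from rfl, h1, h2]
  rw [not_not]
  decide +kernel

/-- **Main result**: the conjunction (a), (b), (c) fails, namely (c) fails at `p = 11`. -/
theorem result : ¬ Q1 := by
  intro h
  exact not_partC_eleven (h 11 (by norm_num) (by norm_num)).2.2

end Pool.Agent.Results.MP_f8e877_nt.PartCFails
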